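import Mathlib
import Pool.Agent.Q261.L6.Almost

set_option autoImplicit false

/-!
# Large values at well-spaced points for almost all additive twists, `V⁴ ≥ N (T + N²)`

For every `D(s) = ∑_{n ≤ N} a_n n^{-s}` with `|a_n| ≤ 1` and every modulus `m ≥ 1`, all but at most
`m N^(-ε/3)` of the `m` twisted polynomials `∑ a_n e(-rn/m) n^{-s}`, `r mod m`, satisfy
`R ≤ C T^ε (N/V)² max(1, (1 + N/m) N (T + N²)/V⁴)` simultaneously for all `T ≥ N`, all `V > 0`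
and all `1`-spaced families of `R` points of `[0,T]` at which the twisted polynomial is at least `V`.
This is the bound of Q1 for all `V⁴ ≥ (1 + N/m) N (T + N²)`. For all polynomials the classical theorem of Huxley
gives it for `V⁴ ≥ N² T` (`m = 1`).

The proof: the hybrid sixth moment
`∑_{r mod m} ∑_{t ∈ S_r} |D_r(t)|⁶ ≤ C N^(3+ε) (m + N) (T + N²)`
(`Pool/Agent/Q261/L6/Hybrid.lean`), derived from a sixth moment inequality for all integer valued sequences with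
second difference comparable to `1`, proved by elementary means (`Pool/Agent/Q261/L6/Main.lean`).
-/

namespace Pool.Agent.Results.MP_a93a41_nt.SixthMomentTwists

open Finset

/-- `D(it) = ∑_{n ≤ N} a_n n^{-it}` -/
noncomputable def D (N : ℕ) (a : ℕ → ℂ) (t : ℝ) : ℂ :=
  ∑ n ∈ Icc 1 N, a n * Complex.exp (-(Complex.I * (t : ℂ) * (Real.log (n : ℝ) : ℂ)))

/-- the coefficients `a_n e(-rn/m)`, `e(x) = exp(2πix)` -/
noncomputable def twist (m r : ℕ) (a : ℕ → ℂ) (n : ℕ) : ℂ :=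
  a n * Complex.exp (-(2 * Real.pi * Complex.I * ((r : ℂ) * n / m)))

/-- the large value bound for all `T ≥ N`, all `V > 0` and all `1`-spaced families -/
def LargeValues (C ε : ℝ) (N m : ℕ) (a : ℕ → ℂ) : Prop :=
  ∀ T : ℝ, (N : ℝ) ≤ T → ∀ V : ℝ, 0 < V → ∀ S : Finset ℝ,
    (∀ t ∈ S, 0 ≤ t ∧ t ≤ T ∧ V ≤ ‖D N a t‖) → (∀ t ∈ S, ∀ u ∈ S, t ≠ u → 1 ≤ |t - u|) →
    (S.card : ℝ) ≤ C * T ^ ε * (N / V) ^ 2 * max 1 ((1 + (N : ℝ) / m) * N * (T + (N : ℝ) ^ 2) / V ^ 4)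

lemma D_conj (N m r : ℕ) (a : ℕ → ℂ) (t : ℝ) :
    ‖D N (twist m r a) t‖ = ‖Pool.Agent.Q261.DR.TW (Icc 1 N) m r (fun n => (starRingEnd ℂ) (a n)) t‖ := by
  rw [← RCLike.norm_conj (D N (twist m r a) t)]
  congr 1
  unfold D Pool.Agent.Q261.DR.TW twist
  rw [map_sum]
  apply sum_congr rfl
  intro n _
  rw [map_mul, map_mul, ← Complex.exp_conj, ← Complex.exp_conj]
  congr 2
  · congr 1
    simp only [map_mul, map_div₀, map_neg, Complex.conj_I, Complex.conj_ofReal, map_ofNat, map_natCast]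
    ring
  · simp only [map_mul, map_neg, Complex.conj_I, Complex.conj_ofReal]
    ring

/-- **Main theorem.** -/
theorem result (ε : ℝ) (hε : 0 < ε) : ∃ C : ℝ, ∀ N m : ℕ, 1 ≤ N → 1 ≤ m →
    ∀ a : ℕ → ℂ, (∀ n, ‖a n‖ ≤ 1) → ∃ B : Finset ℕ, B ⊆ range m ∧ (B.card : ℝ) ≤ m * (N : ℝ) ^ (-(ε / 3)) ∧
      ∀ r ∈ range m, r ∉ B → LargeValues C ε N m (twist m r a) := by
  classical
  have hε0 : 0 < ε / 3 := by positivity
  obtain ⟨C, hC, hsix⟩ := Pool.Agent.Q261.L6.sixthTW hε0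
  refine ⟨C, ?_⟩
  intro N m hN hm a ha
  have hsub : Icc 1 N ⊆ Icc 1 (2 * N) := Icc_subset_Icc_right (by omega)
  obtain ⟨B, hB1, hB2, hB3⟩ := hsix N m hN hm (Icc 1 N) hsub (fun n => (starRingEnd ℂ) (a n))
    (fun n => by rw [RCLike.norm_conj]; exact ha n)
  refine ⟨B, hB1, hB2, ?_⟩
  intro r hr hrB T hT V hV S hS hsep
  have hNr : (1 : ℝ) ≤ N := by exact_mod_cast hN
  have hN0 : (0 : ℝ) < N := by linarith
  have hT0 : (0 : ℝ) < T := by linarith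
  have hm0 : (0 : ℝ) ≤ (N : ℝ) / m := by positivity
  have h1 := hB3 r hr hrB T (by linarith) S (fun t ht => ⟨(hS t ht).1, (hS t ht).2.1⟩) hsep
  have hloss : (N : ℝ) ^ (2 * (ε / 3)) * T ^ (ε / 3) ≤ T ^ ε := by
    calc (N : ℝ) ^ (2 * (ε / 3)) * T ^ (ε / 3) ≤ T ^ (2 * (ε / 3)) * T ^ (ε / 3) := by
          apply mul_le_mul_of_nonneg_right _ (by positivity)
          exact Real.rpow_le_rpow hN0.le hT (by positivity)
      _ = T ^ ε := by
          rw [← Real.rpow_add hT0]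
          congr 1
          ring
  have h2 : (S.card : ℝ) * V ^ 6 ≤ C * T ^ ε * ((1 + (N : ℝ) / m) * ((N : ℝ) ^ 3 * (T + (N : ℝ) ^ 2))) := by
    have h3 : (S.card : ℝ) * V ^ 6 ≤ C * (N : ℝ) ^ (2 * (ε / 3)) * T ^ (ε / 3) * ((1 + (N : ℝ) / m) * ((N : ℝ) ^ 3 * (T + (N : ℝ) ^ 2))) := by
      refine le_trans ?_ h1
      rw [← nsmul_eq_mul]
      apply card_nsmul_le_sum
      intro t ht
      have h3 := (hS t ht).2.2
      rw [D_conj] at h3
      exact pow_le_pow_left₀ hV.le h3 6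
    refine h3.trans ?_
    calc C * (N : ℝ) ^ (2 * (ε / 3)) * T ^ (ε / 3) * ((1 + (N : ℝ) / m) * ((N : ℝ) ^ 3 * (T + (N : ℝ) ^ 2))) =
        C * ((N : ℝ) ^ (2 * (ε / 3)) * T ^ (ε / 3)) * ((1 + (N : ℝ) / m) * ((N : ℝ) ^ 3 * (T + (N : ℝ) ^ 2))) := by ring
      _ ≤ _ := by gcongr
  have h3 : (S.card : ℝ) ≤ C * T ^ ε * (N / V) ^ 2 * ((1 + (N : ℝ) / m) * N * (T + (N : ℝ) ^ 2) / V ^ 4) := by
    have h4 : C * T ^ ε * (N / V) ^ 2 * ((1 + (N : ℝ) / m) * N * (T + (N : ℝ) ^ 2) / V ^ 4) =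
        C * T ^ ε * ((1 + (N : ℝ) / m) * ((N : ℝ) ^ 3 * (T + (N : ℝ) ^ 2))) / V ^ 6 := by
      have hV0 : V ≠ 0 := hV.ne'
      generalize (N : ℝ) / m = x
      field_simp
    rw [h4, le_div_iff₀ (by positivity)]
    exact h2
  refine h3.trans ?_
  apply mul_le_mul_of_nonneg_left (le_max_right _ _)
  positivity

end Pool.Agent.Results.MP_a93a41_nt.SixthMomentTwists
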