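import Pool.Agent.Q144.SS.Ex

/-!
# Large values of Dirichlet polynomials: supports in multiplicatively syndetic sets

Call a set `E` of integers syndetic if every `n ≥ 1` has a multiple `m n` in `E` with
`m ≤ C_η n^η`, for every `η > 0`.

(1) Q1 holds if and only if it holds for the sums `∑_{n ∈ A, n ≤ N} n^{-it}` over all subsets `A` of `E`
(coefficients `0` and `1`, supported on `E`), for every syndetic `E`.
(2) Syndetic are the sets of all `n` with a prescribed value `f(n) = g` of a completely multiplicative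
function with values in a finite group, with prescribed leading digits in any base, and divisible by
`q(n)`, where `q(1) | q(2) | ...` grows subpolynomially.
(3) For instance the numbers with an odd number of prime factors, with leading decimal digit `1` and
divisible by all integers up to `√(log n)`.
(4) The inequality behind (1), for every finite set `S` of real numbers: if every `n ≤ N` has a multiple
`m n ∈ E` with `m ≤ M` then the mean square over `S` of a polynomial of length `N` is at most `M²` times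
that of some polynomial of length `N M` supported on `E`.
-/

set_option autoImplicit false

namespace Pool.Agent.Results.MP_a93a41_nt.SyndeticSupports

/-- `D(it) = ∑_{n ≤ N} a_n n^{-it}` -/
noncomputable def D (a : ℕ → ℂ) (N : ℕ) (t : ℝ) : ℂ :=
  ∑ n ∈ Finset.Icc 1 N, a n * (n : ℂ) ^ (-((t : ℂ) * Complex.I))

/-- `S` is a `1`-spaced family in `[0, T]`, `T ≥ 1`, `N ≥ 1` -/
def Spaced (N : ℕ) (T : ℝ) (S : Finset ℝ) : Prop :=
  1 ≤ N ∧ 1 ≤ T ∧ (∀ t ∈ S, 0 ≤ t ∧ t ≤ T) ∧ ∀ t ∈ S, ∀ u ∈ S, t ≠ u → 1 ≤ |t - u|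

/-- the large value bound of Q1 -/
def LargeValues (ε C : ℝ) (a : ℕ → ℂ) : Prop :=
  ∀ (N : ℕ) (T V : ℝ) (S : Finset ℝ), Spaced N T S → 0 < V → (N : ℝ) * T ^ ε ≤ V ^ 2 →
    (∀ t ∈ S, V ≤ ‖D a N t‖) → (S.card : ℝ) ≤ C * (N : ℝ) ^ 2 / V ^ 2 * T ^ ε

/-- Q1 -/
def Q1 : Prop := ∀ ε : ℝ, 0 < ε → ∃ C : ℝ, ∀ a : ℕ → ℂ, (∀ n, ‖a n‖ ≤ 1) → LargeValues ε C a

/-- every `n ≥ 1` has a multiple `m n` in `E` with `m ≤ C n^η`, for every `η > 0` -/
def Syndetic (E : Set ℕ) : Prop :=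
  ∀ η : ℝ, 0 < η → ∃ C : ℝ, ∀ n : ℕ, 1 ≤ n → ∃ m : ℕ, 1 ≤ m ∧ (m : ℝ) ≤ C * (n : ℝ) ^ η ∧ m * n ∈ E

/-- `q(a) | q(b)` for `a ≤ b`, and `q(n) ≤ C n^δ` for every `δ > 0` -/
def SlowChain (q : ℕ → ℕ) : Prop :=
  (∀ a b, 1 ≤ a → a ≤ b → q a ∣ q b) ∧ (∀ n, 1 ≤ n → 1 ≤ q n) ∧
    ∀ δ : ℝ, 0 < δ → ∃ C : ℝ, ∀ n : ℕ, 1 ≤ n → (q n : ℝ) ≤ C * (n : ℝ) ^ δ

/-- the factorial of `⌊√(log n)⌋` -/
lemma slow_fac : SlowChain fun n => (⌊Real.sqrt (Real.log n)⌋₊).factorial := by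
  refine ⟨fun a b ha hab => ?_, fun n _ => Nat.factorial_pos _, fun δ hδ => ?_⟩
  · apply Nat.factorial_dvd_factorial
    apply Nat.floor_le_floor
    apply Real.sqrt_le_sqrt
    exact Real.log_le_log (by exact_mod_cast ha) (by exact_mod_cast hab)
  · obtain ⟨γ, hγ⟩ : ∃ γ : ℝ, γ = δ / 2 := ⟨_, rfl⟩
    have hγ0 : 0 < γ := by rw [hγ]; positivity
    refine ⟨Real.exp (Real.log (1 / γ) ^ 2 / (4 * γ)), fun n hn => ?_⟩
    have hn1 : (1 : ℝ) ≤ n := by exact_mod_cast hn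
    have hn0 : (0 : ℝ) < n := by linarith
    have hl0 : 0 ≤ Real.log n := Real.log_nonneg hn1
    obtain ⟨L, hL⟩ : ∃ L : ℕ, L = ⌊Real.sqrt (Real.log n)⌋₊ := ⟨_, rfl⟩
    have hLle : (L : ℝ) ≤ Real.sqrt (Real.log n) := by rw [hL]; exact Nat.floor_le (Real.sqrt_nonneg _)
    have hL2 : (L : ℝ) ^ 2 ≤ Real.log n := by
      calc (L : ℝ) ^ 2 ≤ Real.sqrt (Real.log n) ^ 2 := pow_le_pow_left₀ (by positivity) hLle 2
        _ = _ := Real.sq_sqrt hl0
    show (((⌊Real.sqrt (Real.log n)⌋₊).factorial : ℕ) : ℝ) ≤ _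
    rw [← hL]
    have h1 : ((L.factorial : ℕ) : ℝ) ≤ (L : ℝ) ^ L := by exact_mod_cast Nat.factorial_le_pow L
    refine h1.trans ?_
    have h2 : (n : ℝ) ^ δ = Real.exp (δ * Real.log n) := by
      rw [Real.rpow_def_of_pos hn0, mul_comm]
    rw [h2, ← Real.exp_add]
    rcases Nat.eq_zero_or_pos L with h0 | hpos
    · rw [h0]
      simp only [Nat.cast_zero, pow_zero]
      apply Real.one_le_exp
      positivity
    · have hLp : (0 : ℝ) < L := by exact_mod_cast hpos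
      have h3 : (L : ℝ) ^ L = Real.exp (L * Real.log L) := by
        rw [← Real.rpow_natCast, Real.rpow_def_of_pos hLp, mul_comm]
      rw [h3]
      apply Real.exp_le_exp.2
      have h4 : Real.log L ≤ γ * L + Real.log (1 / γ) := by
        have h5 := Real.log_le_sub_one_of_pos (show 0 < γ * L by positivity)
        rw [Real.log_mul hγ0.ne' hLp.ne'] at h5
        rw [one_div, Real.log_inv]
        linarith
      have h5 : (L : ℝ) * Real.log L ≤ γ * L ^ 2 + L * Real.log (1 / γ) := by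
        have := mul_le_mul_of_nonneg_left h4 hLp.le
        calc _ ≤ _ := this
          _ = _ := by ring
      have h6 : (L : ℝ) * Real.log (1 / γ) ≤ γ * L ^ 2 + Real.log (1 / γ) ^ 2 / (4 * γ) := by
        have h7 : 0 ≤ (2 * γ * L - Real.log (1 / γ)) ^ 2 / (4 * γ) := by positivity
        have h8 : (2 * γ * L - Real.log (1 / γ)) ^ 2 / (4 * γ) =
            γ * L ^ 2 - L * Real.log (1 / γ) + Real.log (1 / γ) ^ 2 / (4 * γ) := by
          field_simp
          ring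
        linarith
      have h7 : 2 * γ * (L : ℝ) ^ 2 ≤ δ * Real.log n := by
        rw [hγ]
        calc 2 * (δ / 2) * (L : ℝ) ^ 2 = δ * (L : ℝ) ^ 2 := by ring
          _ ≤ _ := mul_le_mul_of_nonneg_left hL2 hδ.le
      linarith

lemma syndetic_gen (G : Type) [Group G] [Finite G] (f : ℕ → G) (g : G) (q : ℕ → ℕ) (B x y : ℝ)
    (hf : ∀ m n, 1 ≤ m → 1 ≤ n → f (m * n) = f m * f n) (hg : ∃ n, 1 ≤ n ∧ f n = g) (hq : SlowChain q)
    (hB : 1 < B) (hx : 0 < x) (hxy : x < y) :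
    Syndetic {n | f n = g ∧ q n ∣ n ∧ ∃ j : ℕ, x * B ^ j ≤ n ∧ n < y * B ^ j} :=
  Pool.Agent.Q144.SS.syndetic_ex f g q B x y hf hg hq.1 hq.2.1 hq.2.2 hB hx hxy

theorem result :
    -- coefficients `0` and `1` supported on a syndetic set
    (∀ E : Set ℕ, Syndetic E → (Q1 ↔ ∀ ε : ℝ, 0 < ε → ∃ C : ℝ, ∀ A : Set ℕ, A ⊆ E →
      LargeValues ε C (A.indicator 1))) ∧
    -- a family of syndetic sets
    (∀ (G : Type) [Group G] [Finite G] (f : ℕ → G) (g : G) (q : ℕ → ℕ) (B x y : ℝ),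
      (∀ m n, 1 ≤ m → 1 ≤ n → f (m * n) = f m * f n) → (∃ n, 1 ≤ n ∧ f n = g) → SlowChain q →
      1 < B → 0 < x → x < y →
      Syndetic {n | f n = g ∧ q n ∣ n ∧ ∃ j : ℕ, x * B ^ j ≤ n ∧ n < y * B ^ j}) ∧
    -- an odd number of prime factors, leading digit `1`, divisible by all `k ≤ √(log n)`
    Syndetic {n | 1 ≤ n ∧ Odd (ArithmeticFunction.cardFactors n) ∧ (∃ j : ℕ, 10 ^ j ≤ n ∧ n < 2 * 10 ^ j) ∧
      ∀ k : ℕ, 1 ≤ k → (k : ℝ) ≤ Real.sqrt (Real.log n) → k ∣ n} ∧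
    -- the inequality
    (∀ (E : Set ℕ) (N M : ℕ), 1 ≤ N → (∀ n, 1 ≤ n → n ≤ N → ∃ m, 1 ≤ m ∧ m ≤ M ∧ m * n ∈ E) →
      ∀ a : ℕ → ℂ, (∀ n, ‖a n‖ ≤ 1) → ∀ S : Finset ℝ,
      ∃ b : ℕ → ℂ, (∀ n, ‖b n‖ ≤ 1) ∧ (∀ n, n ∉ E → b n = 0) ∧
        ∑ t ∈ S, ‖D a N t‖ ^ 2 ≤ (M : ℝ) ^ 2 * ∑ t ∈ S, ‖D b (N * M) t‖ ^ 2) := by
  refine ⟨fun E hE => Pool.Agent.Q144.SS.main hE, ?_, ?_,
    fun E N M hN h a ha S => Pool.Agent.Q144.SS.transfer hN h a ha S⟩
  · intro G _ _ f g q B x y hf hg hq hB hx hxy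
    exact syndetic_gen G f g q B x y hf hg hq hB hx hxy
  · intro η hη
    have h := syndetic_gen (Multiplicative (ZMod 2))
      (fun n => Multiplicative.ofAdd ((ArithmeticFunction.cardFactors n : ℕ) : ZMod 2)) (Multiplicative.ofAdd 1)
      _ 10 1 2 (by
        intro m n hm hn
        rw [ArithmeticFunction.cardFactors_mul (by omega) (by omega), ← ofAdd_add]
        push_cast
        rfl) ⟨2, by norm_num, by
          rw [ArithmeticFunction.cardFactors_apply_prime Nat.prime_two]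
          rfl⟩ slow_fac (by norm_num) (by norm_num) (by norm_num) η hη
    obtain ⟨C, hC⟩ := h
    refine ⟨C, fun n hn => ?_⟩
    obtain ⟨m, hm1, hm2, hm3, hm4, j, hj1, hj2⟩ := hC n hn
    refine ⟨m, hm1, hm2, Nat.mul_pos hm1 hn, ?_, ⟨j, ?_, ?_⟩, ?_⟩
    · have h1 : ((ArithmeticFunction.cardFactors (m * n) : ℕ) : ZMod 2) = 1 := Multiplicative.ofAdd.injective hm3
      have h2 : ((ArithmeticFunction.cardFactors (m * n) : ℕ) : ZMod 2) = ((1 : ℕ) : ZMod 2) := by rw [h1]; rfl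
      rw [ZMod.natCast_eq_natCast_iff] at h2
      exact Nat.odd_iff.2 h2
    · rw [one_mul] at hj1
      exact_mod_cast hj1
    · exact_mod_cast hj2
    · intro k hk1 hk2
      have h1 : k ≤ ⌊Real.sqrt (Real.log ((m * n : ℕ) : ℝ))⌋₊ := Nat.le_floor hk2
      exact (Nat.dvd_factorial hk1 h1).trans hm4

end Pool.Agent.Results.MP_a93a41_nt.SyndeticSupports
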